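import Pool.Agent.H15.F8.Targets

/-!
Module L9 of the project `MP_f8d35d_nt`: cube roots of unity in `ℚ_p`, `p ≡ 1 mod 3`.
-/

namespace F8.H2

theorem exists_zmod_om (p : ℕ) [Fact p.Prime] (hp : p % 3 = 1) :
    ∃ r : ZMod p, r ^ 2 + r + 1 = 0 := by
  have h3 : 3 ∣ Fintype.card (ZMod p)ˣ := by
    rw [ZMod.card_units_eq_totient, Nat.totient_prime Fact.out]
    omega
  have f3 : Fact (Nat.Prime 3) := ⟨by norm_num⟩
  obtain ⟨u, hu⟩ := exists_prime_orderOf_dvd_card 3 h3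
  refine ⟨(u : ZMod p), ?_⟩
  have h1 : ((u : ZMod p)) ^ 3 = 1 := by
    have := pow_orderOf_eq_one u
    rw [hu] at this
    have h5 := congrArg Units.val this
    simpa using h5
  have h2 : (u : ZMod p) - 1 ≠ 0 := by
    intro h
    have : u = 1 := Units.ext (by simpa [sub_eq_zero] using h)
    rw [this, orderOf_one] at hu
    norm_num at hu
  have h4 : ((u : ZMod p) - 1) * ((u : ZMod p) ^ 2 + u + 1) = 0 := by
    linear_combination h1
  exact (mul_eq_zero.mp h4).resolve_left h2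

theorem exists_padicInt_om (p : ℕ) [Fact p.Prime] (hp : p % 3 = 1) :
    ∃ z : ℤ_[p], z ^ 2 + z + 1 = 0 := by
  obtain ⟨r, hr⟩ := exists_zmod_om p hp
  obtain ⟨a, ha⟩ : ∃ a : ℤ_[p], PadicInt.toZMod a = r := by
    exact ⟨(r.val : ℤ_[p]), by simp⟩
  have hlt : ‖a ^ 2 + a + 1‖ < 1 := by
    have h1 : PadicInt.toZMod (a ^ 2 + a + 1) = 0 := by
      rw [map_add, map_add, map_pow, map_one, ha, hr]
    have h2 : a ^ 2 + a + 1 ∈ RingHom.ker (PadicInt.toZMod : ℤ_[p] →+* ZMod p) := h1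
    rw [PadicInt.ker_toZMod, IsLocalRing.mem_maximalIdeal, PadicInt.mem_nonunits] at h2
    exact h2
  have h3 : ‖(3 : ℤ_[p])‖ = 1 := by
    have h4 : ‖((3 : ℤ) : ℤ_[p])‖ = 1 := by
      by_contra hne
      have h5 : ‖((3 : ℤ) : ℤ_[p])‖ < 1 := lt_of_le_of_ne (PadicInt.norm_le_one _) hne
      rw [PadicInt.norm_int_lt_one_iff_dvd] at h5
      have h6 : p ∣ 3 := by exact_mod_cast h5
      have h7 := (Nat.prime_dvd_prime_iff_eq Fact.out (by norm_num : Nat.Prime 3)).mp h6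
      omega
    simpa using h4
  have hder : ‖2 * a + 1‖ = 1 := by
    have h4 : (2 * a + 1) ^ 2 = 4 * (a ^ 2 + a + 1) + -3 := by ring
    have h5 : ‖(2 * a + 1) ^ 2‖ = 1 := by
      rw [h4]
      have h6 : ‖4 * (a ^ 2 + a + 1)‖ < ‖(-3 : ℤ_[p])‖ := by
        rw [norm_neg, h3, norm_mul]
        calc ‖(4 : ℤ_[p])‖ * ‖a ^ 2 + a + 1‖ ≤ 1 * ‖a ^ 2 + a + 1‖ :=
              mul_le_mul_of_nonneg_right (PadicInt.norm_le_one _) (norm_nonneg _)
          _ < 1 := by rw [one_mul]; exact hlt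
      rw [PadicInt.norm_add_eq_max_of_ne h6.ne, max_eq_right h6.le, norm_neg, h3]
    rw [norm_pow] at h5
    exact (pow_eq_one_iff_of_nonneg (norm_nonneg _) (by norm_num)).mp h5
  obtain ⟨z, hz, -⟩ := hensels_lemma (p := p)
    (F := (Polynomial.X ^ 2 + Polynomial.X + 1 : Polynomial ℤ_[p])) (a := a) (by
      have e1 : Polynomial.aeval a (Polynomial.X ^ 2 + Polynomial.X + 1 : Polynomial ℤ_[p]) =
        a ^ 2 + a + 1 := by simp
      have e2 : Polynomial.aeval a (Polynomial.derivative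
        (Polynomial.X ^ 2 + Polynomial.X + 1 : Polynomial ℤ_[p])) = 2 * a + 1 := by
        simp
        left
        norm_num
      rw [e1, e2, hder, one_pow]
      exact hlt)
  exact ⟨z, by simpa using hz⟩

theorem omStmt : OmStmt := by
  intro p _ hp i
  obtain ⟨z, hz⟩ := exists_padicInt_om p hp
  have hz' : ((z : ℚ_[p])) ^ 2 + z + 1 = 0 := by exact_mod_cast congrArg (fun x : ℤ_[p] => (x : ℚ_[p])) hz
  set y : Om p := algebraMap ℚ_[p] (Om p) z with hy
  have hy' : y ^ 2 + y + 1 = 0 := by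
    have := congrArg (algebraMap ℚ_[p] (Om p)) hz'
    simpa using this
  have hi : (i om) ^ 2 + i om + 1 = 0 := by
    have := congrArg i om_spec
    simpa using this
  have h2 : (i om - y) * (i om - (-1 - y)) = 0 := by
    linear_combination hi - hy'
  rcases mul_eq_zero.mp h2 with h | h
  · exact ⟨z, by rw [← hy]; linear_combination h⟩
  · refine ⟨-1 - z, ?_⟩
    rw [map_sub, map_neg, map_one, ← hy]
    linear_combination h

end F8.H2
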