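import Pool.Agent.H15.F8.Targets

/-!
Module N1 of the project `MP_f8d35d_nt`: rationals with valuations divisible by three.
-/

namespace F8.H2

theorem nat_cube (n : ℕ) (hn : n ≠ 0) (h : ∀ p : ℕ, p.Prime → 3 ∣ padicValNat p n) :
    ∃ m : ℕ, n = m ^ 3 := by
  refine ⟨n.factorization.prod (fun p k => p ^ (k / 3)), ?_⟩
  conv_lhs => rw [← Nat.prod_factorization_pow_eq_self hn]
  rw [Finsupp.prod, Finsupp.prod, ← Finset.prod_pow]
  apply Finset.prod_congr rfl
  intro p hp
  have hpp : p.Prime := Nat.prime_of_mem_primeFactors (by simpa using hp)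
  rw [← pow_mul]
  congr 1
  have := h p hpp
  rw [← Nat.factorization_def n hpp] at this
  omega

theorem rat_cube (r : ℚ) (hr : r ≠ 0) (h : ∀ p : ℕ, p.Prime → (3 : ℤ) ∣ padicValRat p r) :
    ∃ t : ℚ, r = t ^ 3 := by
  have hden : (r.den : ℚ) ≠ 0 := by exact_mod_cast r.den_ne_zero
  have hz : ((r.num * (r.den : ℤ) ^ 2 : ℤ) : ℚ) = r * (r.den : ℚ) ^ 3 := by
    push_cast
    have : (r.num : ℚ) = r * r.den := by
      exact_mod_cast (Rat.mul_den_eq_num r).symm
    rw [this]; ring
  have hz0 : r.num * (r.den : ℤ) ^ 2 ≠ 0 := by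
    have h1 : r.num ≠ 0 := Rat.num_ne_zero.mpr hr
    have h2 : (r.den : ℤ) ≠ 0 := by exact_mod_cast r.den_ne_zero
    positivity
  obtain ⟨m, hm⟩ := nat_cube (r.num * (r.den : ℤ) ^ 2).natAbs (by simpa using hz0) (by
    intro p hp
    have : Fact p.Prime := ⟨hp⟩
    have h1 : padicValRat p ((r.num * (r.den : ℤ) ^ 2 : ℤ) : ℚ) =
        padicValRat p r + 3 * padicValRat p (r.den : ℚ) := by
      rw [hz, padicValRat.mul hr (pow_ne_zero _ hden), padicValRat.pow]
      push_cast; ring
    rw [padicValRat.of_int, padicValInt] at h1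
    have h2 : (3 : ℤ) ∣ ((padicValNat p (r.num * (r.den : ℤ) ^ 2).natAbs : ℕ) : ℤ) := by
      rw [h1]
      exact dvd_add (h p hp) (dvd_mul_right _ _)
    exact_mod_cast h2)
  have h3 : (r.num * (r.den : ℤ) ^ 2 = (m : ℤ) ^ 3) ∨ (r.num * (r.den : ℤ) ^ 2 = -(m : ℤ) ^ 3) := by
    have := Int.natAbs_eq (r.num * (r.den : ℤ) ^ 2)
    rw [hm] at this
    push_cast at this
    exact this
  rcases h3 with h3 | h3
  · refine ⟨m / r.den, ?_⟩
    rw [h3] at hz
    push_cast at hz
    field_simp
    linarith
  · refine ⟨-m / r.den, ?_⟩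
    rw [h3] at hz
    push_cast at hz
    field_simp
    linarith

theorem ratStmt : RatStmt := by
  intro q hq h
  have f13 : Fact (Nat.Prime 13) := ⟨by norm_num⟩
  have f73 : Fact (Nat.Prime 73) := ⟨by norm_num⟩
  have f19 : Fact (Nat.Prime 19) := ⟨by norm_num⟩
  set a := padicValRat 13 q with ha
  set b := padicValRat 73 q with hb
  set c := padicValRat 19 q with hc
  refine ⟨(a % 3).toNat, (b % 3).toNat, (c % 3).toNat, by omega, by omega, by omega, ?_⟩
  set i := (a % 3).toNat with hi
  set j := (b % 3).toNat with hj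
  set m := (c % 3).toNat with hm
  have hD : (13 : ℚ) ^ i * 73 ^ j * 19 ^ m ≠ 0 := by positivity
  obtain ⟨t, ht⟩ := rat_cube (q / (13 ^ i * 73 ^ j * 19 ^ m)) (div_ne_zero hq hD) (by
    intro p hp
    have : Fact p.Prime := ⟨hp⟩
    rw [padicValRat.div hq hD, padicValRat.mul (by positivity) (by positivity),
      padicValRat.mul (by positivity) (by positivity), padicValRat.pow,
      padicValRat.pow, padicValRat.pow]
    have v : ∀ l : ℕ, l.Prime → padicValRat p (l : ℚ) = if p = l then 1 else 0 := by
      intro l hl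
      have : Fact l.Prime := ⟨hl⟩
      split_ifs with hpl
      · subst hpl
        exact padicValRat.self hp.one_lt
      · rw [padicValRat.of_nat, padicValNat_primes hpl]
        rfl
    have v13 := v 13 (by norm_num)
    have v73 := v 73 (by norm_num)
    have v19 := v 19 (by norm_num)
    push_cast at v13 v73 v19
    rw [v13, v73, v19]
    by_cases h1 : p = 13
    · subst h1
      norm_num
      omega
    · by_cases h2 : p = 73
      · subst h2
        norm_num
        omega
      · by_cases h3 : p = 19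
        · subst h3
          norm_num
          omega
        · simp only [h1, h2, h3, if_false]
          have := h p hp h1 h2 h3
          simpa using this)
  exact ⟨t, by rw [← ht]; field_simp⟩

end F8.H2
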