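import Pool.Agent.H2.F8.L9

/-!
Modules N5, N6 of the project `MP_f8d35d_nt`: `949` and `ω` are not norms, by reduction
modulo `13`.
-/

namespace F8.H2

instance fact13 : Fact (Nat.Prime 13) := ⟨by norm_num⟩

theorem exists_tau : ∃ r : Gam, r om = om ^ 2 := by
  by_contra hcon
  push Not at hcon
  have h1 : ∀ s : Gam, s om = om := fun s => (gam_om s).resolve_right (hcon s)
  obtain ⟨q, hq⟩ := fix_rat om h1
  have h2 := om_spec
  rw [hq] at h2
  have h3 : q ^ 2 + q + 1 = 0 := by exact_mod_cast h2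
  nlinarith [sq_nonneg (2 * q + 1)]

theorem exists_emb (p : ℕ) [Fact p.Prime] : Nonempty (Qbar →+* Om p) := by
  have : Algebra.IsAlgebraic ℚ Qbar := IsAlgClosure.isAlgebraic
  exact ⟨(IsAlgClosed.lift : Qbar →ₐ[ℚ] Om p).toRingHom⟩

/-- the norm on `Om p` restricted to `ℚ_p` -/
theorem norm_am {p : ℕ} [Fact p.Prime] (x : ℚ_[p]) : ‖algebraMap ℚ_[p] (Om p) x‖ = ‖x‖ :=
  PadicAlgCl.norm_extends p x

/-- the embedding of the `p`-adic integers in `Om p` -/
noncomputable def zo (p : ℕ) [Fact p.Prime] : ℤ_[p] →+* Om p :=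
  (algebraMap ℚ_[p] (Om p)).comp PadicInt.Coe.ringHom

theorem zo_apply {p : ℕ} [Fact p.Prime] (x : ℤ_[p]) :
    zo p x = algebraMap ℚ_[p] (Om p) (x : ℚ_[p]) := rfl

theorem norm_zo {p : ℕ} [Fact p.Prime] (x : ℤ_[p]) : ‖zo p x‖ = ‖x‖ := by
  rw [zo_apply, norm_am, PadicInt.padic_norm_e_of_padicInt]

/-- an embedding with `i ω = 9 mod 13` -/
theorem exists_i13 : ∃ (i : Qbar →+* Om 13) (W : ℤ_[13]),
    i om = algebraMap ℚ_[13] (Om 13) (W : ℚ_[13]) ∧ PadicInt.toZMod W = 9 := by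
  obtain ⟨i⟩ := exists_emb 13
  obtain ⟨w, hw⟩ := omStmt 13 (by norm_num) i
  have hw3 : w ^ 3 = 1 := by
    have h1 : algebraMap ℚ_[13] (Om 13) (w ^ 3) = algebraMap ℚ_[13] (Om 13) 1 := by
      rw [map_pow, ← hw, ← map_pow, om_cube, map_one, map_one]
    exact (algebraMap ℚ_[13] (Om 13)).injective h1
  have hn : ‖w‖ = 1 := by
    have h1 : ‖w‖ ^ 3 = 1 := by rw [← norm_pow, hw3, norm_one]
    exact (pow_eq_one_iff_of_nonneg (norm_nonneg _) (by norm_num)).mp h1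
  let W : ℤ_[13] := ⟨w, hn.le⟩
  have hWw : (W : ℚ_[13]) = w := rfl
  have hs : W ^ 2 + W + 1 = 0 := by
    have h1 : w ^ 2 + w + 1 = 0 := by
      have h2 : algebraMap ℚ_[13] (Om 13) (w ^ 2 + w + 1) = algebraMap ℚ_[13] (Om 13) 0 := by
        rw [map_add, map_add, map_pow, ← hw, map_one, map_zero, ← map_pow, ← map_add,
          ← map_one i, ← map_add, om_spec, map_zero]
      exact (algebraMap ℚ_[13] (Om 13)).injective h2
    apply Subtype.ext
    exact_mod_cast h1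
  have hr : ∀ r : ZMod 13, r ^ 2 + r + 1 = 0 → r = 3 ∨ r = 9 := by decide
  have hr' := hr (PadicInt.toZMod W) (by
    rw [← map_pow, ← map_add, ← map_one (PadicInt.toZMod : ℤ_[13] →+* ZMod 13), ← map_add, hs,
      map_zero])
  rcases hr' with h | h
  · obtain ⟨r, hr⟩ := exists_tau
    refine ⟨i.comp (r : Qbar →+* Qbar), W ^ 2, ?_, ?_⟩
    · change i (r om) = _
      rw [hr, map_pow, hw, PadicInt.coe_pow, map_pow]
    · rw [map_pow, h]; decide
  · exact ⟨i, W, hw, h⟩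

/-- the data at `13` -/
theorem setup13 (i : Qbar →+* Om 13) (W : ℤ_[13])
    (hi : i om = algebraMap ℚ_[13] (Om 13) (W : ℚ_[13])) (hW : PadicInt.toZMod W = 9) :
    (i ka = algebraMap ℚ_[13] (Om 13) ((949 * (19 * (10 - 129 * W)) : ℤ_[13]) : ℚ_[13])) ∧
    ‖i th‖ ^ 3 = (13 : ℝ) ^ (-1 : ℤ) := by
  have h1 : i ka = algebraMap ℚ_[13] (Om 13) ((949 * (19 * (10 - 129 * W)) : ℤ_[13]) : ℚ_[13]) := by
    unfold ka
    rw [← zo_apply] at hi ⊢
    simp only [map_mul, map_sub, map_ofNat, hi]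
    ring
  refine ⟨h1, ?_⟩
  have h2 : ‖i th‖ ^ 3 = ‖i ka‖ := by
    rw [← th_spec, map_pow, norm_pow]
  rw [h2, h1, norm_am, PadicInt.padic_norm_e_of_padicInt]
  have hu : ∀ u : ℤ_[13], PadicInt.toZMod u ≠ 0 → ‖u‖ = 1 := by
    intro u hu
    by_contra hne
    have h5 : ‖u‖ < 1 := lt_of_le_of_ne (PadicInt.norm_le_one _) hne
    apply hu
    have h2 : u ∈ RingHom.ker (PadicInt.toZMod : ℤ_[13] →+* ZMod 13) := by
      rw [PadicInt.ker_toZMod, IsLocalRing.mem_maximalIdeal, PadicInt.mem_nonunits]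
      exact h5
    exact h2
  have e : (949 * (19 * (10 - 129 * W)) : ℤ_[13]) = 13 * (73 * (19 * (10 - 129 * W))) := by ring
  have h13 : ‖(13 : ℤ_[13])‖ = (13 : ℝ)⁻¹ := by
    have := PadicInt.norm_p (p := 13)
    exact_mod_cast this
  rw [e, norm_mul, h13, hu, mul_one, zpow_neg_one]
  have : PadicInt.toZMod (73 * (19 * (10 - 129 * W)) : ℤ_[13]) = 73 * (19 * (10 - 129 * 9)) := by
    simp only [map_mul, map_sub, map_ofNat, hW]
  rw [this]
  decide

theorem mem_bot_iff' {p : ℕ} [Fact p.Prime] {a : Om p} :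
    a ∈ (⊥ : IntermediateField ℚ_[p] (Om p)) ↔ ∃ a0 : ℚ_[p], a = algebraMap ℚ_[p] (Om p) a0 := by
  rw [IntermediateField.mem_bot]
  constructor
  · rintro ⟨x, hx⟩; exact ⟨x, hx.symm⟩
  · rintro ⟨x, hx⟩; exact ⟨x, hx.symm⟩

theorem fix_bot {p : ℕ} [Fact p.Prime] (g : Gp p) {a : Om p}
    (ha : a ∈ (⊥ : IntermediateField ℚ_[p] (Om p))) : g a = a := by
  obtain ⟨a0, rfl⟩ := mem_bot_iff'.mp ha
  exact g.commutes a0

/-- norms of elements of `ℚ_13` whose cube is a power of `13`. -/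
theorem norm_bot13 {a : Om 13} (ha : a ∈ (⊥ : IntermediateField ℚ_[13] (Om 13))) {m : ℤ}
    (h : ‖a‖ ^ 3 = (13 : ℝ) ^ m) : (3 : ℤ) ∣ m := by
  obtain ⟨a0, rfl⟩ := mem_bot_iff'.mp ha
  rw [norm_am] at h
  by_cases h0 : a0 = 0
  · rw [h0, norm_zero] at h
    have : (0 : ℝ) < 13 ^ m := by positivity
    norm_num at h
    exact absurd h.symm this.ne'
  · have hn := Padic.norm_eq_zpow_neg_valuation h0
    rw [hn, ← zpow_natCast, ← zpow_mul] at h
    have h2 := zpow_right_injective₀ (by norm_num : (0 : ℝ) < ((13 : ℕ) : ℝ)) (by norm_num) h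
    exact ⟨-a0.valuation, by rw [← h2]; ring⟩

/-- every field automorphism property: `w` lies in `ℚ(ω, θ)`. -/
def Fx (w : Qbar) : Prop := ∀ s : Gam, s om = om → s th = th → s w = w

theorem Fx_sigma {σ : Gam} (h1 : σ om = om) (h2 : σ th = om * th) {w : Qbar} (hw : Fx w) :
    Fx (σ w) := by
  intro s hs1 hs2
  have hinv : ∀ x, σ⁻¹ (σ x) = x := fun x => by
    rw [← AlgEquiv.mul_apply, inv_mul_cancel, AlgEquiv.one_apply]
  have h3 : (σ⁻¹ * s * σ) w = w := by
    apply hw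
    · rw [AlgEquiv.mul_apply, AlgEquiv.mul_apply, h1, hs1, ← h1, hinv, h1]
    · rw [AlgEquiv.mul_apply, AlgEquiv.mul_apply, h2, map_mul, hs1, hs2, ← h2, hinv]
  have h4 := congrArg σ h3
  rw [AlgEquiv.mul_apply, AlgEquiv.mul_apply, ← AlgEquiv.mul_apply, mul_inv_cancel,
    AlgEquiv.one_apply] at h4
  exact h4

theorem Fx_eq {σ s : Gam} (h1 : σ om = om) (h2 : σ th = om * th) (h3 : s om = om)
    (h4 : s th = om * th) {w : Qbar} (hw : Fx w) : s w = σ w := by
  have hinv : ∀ x, σ⁻¹ (σ x) = x := fun x => by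
    rw [← AlgEquiv.mul_apply, inv_mul_cancel, AlgEquiv.one_apply]
  have h5 : (σ⁻¹ * s) w = w := by
    apply hw
    · rw [AlgEquiv.mul_apply, h3, ← h1, hinv, h1]
    · rw [AlgEquiv.mul_apply, h4, ← h2, hinv]
  have h6 := congrArg σ h5
  rw [AlgEquiv.mul_apply, ← AlgEquiv.mul_apply, mul_inv_cancel, AlgEquiv.one_apply] at h6
  exact h6

/-- the local automorphism at `13`. -/
theorem exists_g13 (i : Qbar →+* Om 13) (W : ℤ_[13])
    (hi : i om = algebraMap ℚ_[13] (Om 13) (W : ℚ_[13])) (hW : PadicInt.toZMod W = 9) :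
    ∃ (g : Gp 13) (s : Gam), Res i g s ∧ s om = om ∧ s th = om * th := by
  obtain ⟨-, hth⟩ := setup13 i W hi hW
  have hom : i om ∈ (⊥ : IntermediateField ℚ_[13] (Om 13)) := mem_bot_iff'.mpr ⟨_, hi⟩
  have hnot : i th ∉ (⊥ : IntermediateField ℚ_[13] (Om 13)) := fun h => by
    have := norm_bot13 h hth
    omega
  rw [mem_iff_fixed] at hnot
  push Not at hnot
  obtain ⟨g, -, hg⟩ := hnot
  have hth0 : i th ≠ 0 := by
    intro h
    rw [h, norm_zero] at hth
    norm_num at hth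
  have hcube : (g (i th)) ^ 3 = (i th) ^ 3 := by
    rw [← map_pow, ← map_pow, th_spec]
    apply fix_bot
    obtain ⟨h1, -⟩ := setup13 i W hi hW
    exact mem_bot_iff'.mpr ⟨_, h1⟩
  have homc : (i om) ^ 2 + i om + 1 = 0 := by
    have := congrArg i om_spec
    simpa using this
  have hom3 : (i om) ^ 3 = 1 := by linear_combination (i om - 1) * homc
  have hfac : (g (i th) - i th) * ((g (i th) - i om * i th) *
      (g (i th) - (i om) ^ 2 * i th)) = 0 := by
    linear_combination hcube + (g (i th) * (i th) ^ 2 * (i om) ^ 1 - g (i th) ^ 2 * i th) * homc +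
      (-(i th) ^ 3) * hom3
  obtain ⟨s, hs⟩ := exists_res i g
  have hso : s om = om := (res_om hs).mp (fix_bot g hom)
  rcases mul_eq_zero.mp hfac with h | h
  · exact absurd (by linear_combination h) hg
  · rcases mul_eq_zero.mp h with h | h
    · refine ⟨g, s, hs, hso, ?_⟩
      rw [← res_eq hs, map_mul]
      linear_combination h
    · refine ⟨g * g, s * s, hs.mul hs, by rw [AlgEquiv.mul_apply, hso, hso], ?_⟩
      have h2 : s th = om ^ 2 * th := by
        rw [← res_eq hs, map_mul, map_pow]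
        linear_combination h
      rw [AlgEquiv.mul_apply, h2, map_mul, map_pow, hso, h2]
      linear_combination om * th * om_cube

theorem norm_eq_of_sub_lt {p : ℕ} [Fact p.Prime] {x y : Om p} (h : ‖x - y‖ < ‖x‖) :
    ‖y‖ = ‖x‖ := by
  by_contra hne
  have h1 : ‖x - y‖ = max ‖x‖ ‖y‖ := by
    rw [sub_eq_add_neg, ← norm_neg y]
    exact IsUltrametricDist.norm_add_eq_max_of_norm_ne_norm (by
      rw [norm_neg]; exact fun h => hne h.symm)
  rw [h1] at h
  exact absurd (le_max_left ‖x‖ ‖y‖) (not_le.mpr h)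

theorem prod_close {p : ℕ} [Fact p.Prime] {x y z b : Om p} (hx : ‖x - b‖ < 1)
    (hy : ‖y - b‖ < 1) (hz : ‖z - b‖ < 1) (hb : ‖b‖ ≤ 1) : ‖x * y * z - b ^ 3‖ < 1 := by
  have hle : ∀ t : Om p, ‖t - b‖ < 1 → ‖t‖ ≤ 1 := by
    intro t ht
    have h1 : t = (t - b) + b := by ring
    rw [h1]
    exact (IsUltrametricDist.norm_add_le_max _ _).trans (max_le ht.le hb)
  have e : x * y * z - b ^ 3 = (x - b) * (y * z) + (b * ((y - b) * z) + b * (b * (z - b))) := by
    ring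
  have hy1 := hle y hy
  have hz1 := hle z hz
  have m : ∀ s t : Om p, ‖s‖ < 1 → ‖t‖ ≤ 1 → ‖s * t‖ < 1 := by
    intro s t hs ht
    rw [norm_mul]
    calc ‖s‖ * ‖t‖ ≤ ‖s‖ * 1 := mul_le_mul_of_nonneg_left ht (norm_nonneg _)
      _ < 1 := by rw [mul_one]; exact hs
  have m' : ∀ s t : Om p, ‖s‖ ≤ 1 → ‖t‖ < 1 → ‖s * t‖ < 1 := by
    intro s t hs ht
    rw [mul_comm]; exact m t s ht hs
  have hyz : ‖y * z‖ ≤ 1 := by
    rw [norm_mul]
    exact mul_le_one₀ hy1 (norm_nonneg _) hz1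
  rw [e]
  refine lt_of_le_of_lt (IsUltrametricDist.norm_add_le_max _ _) (max_lt (m _ _ hx hyz) ?_)
  exact lt_of_le_of_lt (IsUltrametricDist.norm_add_le_max _ _)
    (max_lt (m' _ _ hb (m _ _ hy hz1)) (m' _ _ hb (m' _ _ hb hz)))

theorem toZMod_of_norm_lt {p : ℕ} [Fact p.Prime] {u : ℤ_[p]} (h : ‖zo p u‖ < 1) :
    PadicInt.toZMod u = 0 := by
  rw [norm_zo] at h
  have h2 : u ∈ RingHom.ker (PadicInt.toZMod : ℤ_[p] →+* ZMod p) := by
    rw [PadicInt.ker_toZMod, IsLocalRing.mem_maximalIdeal, PadicInt.mem_nonunits]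
    exact h
  exact h2

/-- main computation: the dominant term of an element of `ℚ_13(θ)` whose norm (to `ℚ_13`)
has absolute value `13^(-m)`, `m = 0, 1`. -/
theorem core13 (D : DomStmt) (i : Qbar →+* Om 13) (W : ℤ_[13])
    (hi : i om = algebraMap ℚ_[13] (Om 13) (W : ℚ_[13])) (hW : PadicInt.toZMod W = 9)
    (w : Qbar) (hw : Fx w) (m : ℕ) (hm : m < 2) (hn : ‖i w‖ ^ 3 = (13 : ℝ) ^ (-(m : ℤ))) :
    ∃ B : ℤ_[13], ‖i w / (i th) ^ m - zo 13 B‖ < 1 := by
  obtain ⟨hka, hth⟩ := setup13 i W hi hW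
  have hth0 : i th ≠ 0 := by
    intro h
    rw [h, norm_zero] at hth
    norm_num at hth
  have hw0 : i w ≠ 0 := by
    intro h
    rw [h, norm_zero] at hn
    have : (0 : ℝ) < 13 ^ (-(m : ℤ)) := by positivity
    norm_num at hn
    exact absurd hn.symm (by positivity)
  have hπ2 : (‖i th‖ ^ 2) ^ 3 = (13 : ℝ) ^ (-2 : ℤ) := by
    rw [← pow_mul, mul_comm, pow_mul, hth, ← zpow_natCast, ← zpow_mul]
    norm_num
  obtain ⟨j, hj, b, hb, hlt⟩ := D 13 ⊥ (i th) hth0
    ⟨i ka, mem_bot_iff'.mpr ⟨_, hka⟩, 0, zero_mem _, 0, zero_mem _, by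
      rw [← map_pow, th_spec]; ring⟩
    (fun a ha h => by
      have := norm_bot13 ha (m := -1) (by rw [h, hth])
      omega)
    (fun a ha h => by
      have := norm_bot13 ha (m := -2) (by rw [h, hπ2])
      omega)
    (i w) hw0 (fun g hg1 hg2 => by
      obtain ⟨s, hs⟩ := exists_res i g
      have h1 : s om = om := (res_om hs).mp (hg1 _ (mem_bot_iff'.mpr ⟨_, hi⟩))
      have h2 : s th = th := (res_eq hs th th).mp hg2
      rw [hs w, hw s h1 h2])
  have hnb : ‖b * (i th) ^ j‖ = ‖i w‖ := norm_eq_of_sub_lt hlt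
  have h3 : ‖b‖ ^ 3 = (13 : ℝ) ^ ((j : ℤ) - m) := by
    have h4 : ‖b‖ ^ 3 * (13 : ℝ) ^ (-(j : ℤ)) = (13 : ℝ) ^ (-(m : ℤ)) := by
      rw [← hn, ← hnb, norm_mul, norm_pow, mul_pow, ← pow_mul, mul_comm j 3, pow_mul, hth]
      rw [← zpow_natCast ((13 : ℝ) ^ (-1 : ℤ)) j, ← zpow_mul]
      norm_num
    have h5 : (13 : ℝ) ^ (-(j : ℤ)) * 13 ^ (j : ℤ) = 1 := by
      rw [← zpow_add₀ (by norm_num)]; simp
    calc ‖b‖ ^ 3 = ‖b‖ ^ 3 * (13 : ℝ) ^ (-(j : ℤ)) * 13 ^ (j : ℤ) := by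
          rw [mul_assoc, h5, mul_one]
      _ = (13 : ℝ) ^ ((j : ℤ) - m) := by
          rw [h4, ← zpow_add₀ (by norm_num)]
          congr 1; ring
  have hdiv := norm_bot13 hb h3
  have hjm : j = m := by omega
  subst hjm
  have hb1 : ‖b‖ = 1 := by
    rw [sub_self, zpow_zero] at h3
    exact (pow_eq_one_iff_of_nonneg (norm_nonneg _) (by norm_num)).mp h3
  obtain ⟨b0, rfl⟩ := mem_bot_iff'.mp hb
  rw [norm_am] at hb1
  refine ⟨⟨b0, hb1.le⟩, ?_⟩
  have hpos : 0 < ‖(i th) ^ j‖ := norm_pos_iff.mpr (pow_ne_zero _ hth0)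
  have e : i w / (i th) ^ j - zo 13 ⟨b0, hb1.le⟩ =
      (i w - algebraMap ℚ_[13] (Om 13) b0 * (i th) ^ j) / (i th) ^ j := by
    rw [zo_apply]
    field_simp
  have hnw : ‖i w‖ = ‖(i th) ^ j‖ := by
    rw [← hnb, norm_mul, norm_am, hb1, one_mul]
  rw [e, norm_div, div_lt_one hpos, ← hnw]
  exact hlt

theorem normOmStmt (D : DomStmt) : NormOmStmt := by
  intro σ h1 h2 w hw
  obtain ⟨i, W, hi, hW⟩ := exists_i13
  obtain ⟨g, s, hs, hs1, hs2⟩ := exists_g13 i W hi hW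
  have hw1 : Fx (σ w) := Fx_sigma h1 h2 hw
  have e1 : i (σ w) = g (i w) := by rw [hs w, Fx_eq h1 h2 hs1 hs2 hw]
  have e2 : i (σ (σ w)) = g (g (i w)) := by
    rw [← e1, hs (σ w), Fx_eq h1 h2 hs1 hs2 hw1]
  have homn : ‖i om‖ = 1 := by
    have h3 : ‖i om‖ ^ 3 = 1 := by rw [← norm_pow, ← map_pow, om_cube, map_one, norm_one]
    exact (pow_eq_one_iff_of_nonneg (norm_nonneg _) (by norm_num)).mp h3
  have main : ∀ k : ℕ, w * σ w * σ (σ w) = om ^ k → ∃ t : ZMod 13, (9 : ZMod 13) ^ k = t ^ 3 := by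
    intro k hk
    have hprod : i w * g (i w) * g (g (i w)) = (i om) ^ k := by
      rw [← e2, ← e1, ← map_mul, ← map_mul, hk, map_pow]
    have hn : ‖i w‖ ^ 3 = (13 : ℝ) ^ (-((0 : ℕ) : ℤ)) := by
      have := congrArg norm hprod
      rw [norm_mul, norm_mul, norm_gal, norm_gal, norm_gal, norm_pow, homn, one_pow] at this
      simp only [Nat.cast_zero, neg_zero, zpow_zero]
      rw [← this]; ring
    obtain ⟨B, hB⟩ := core13 D i W hi hW w hw 0 (by norm_num) hn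
    rw [pow_zero, div_one] at hB
    have hgB : ∀ g : Gp 13, g (zo 13 B) = zo 13 B := fun g => g.commutes _
    have hB1 : ‖g (i w) - zo 13 B‖ < 1 := by
      rw [← hgB g, ← map_sub, norm_gal]; exact hB
    have hB2 : ‖g (g (i w)) - zo 13 B‖ < 1 := by
      rw [← hgB g, ← map_sub, norm_gal]; exact hB1
    have h5 := prod_close hB hB1 hB2 (by rw [norm_zo]; exact PadicInt.norm_le_one _)
    rw [hprod, hi, ← zo_apply, ← map_pow, ← map_pow, ← map_sub] at h5
    have h6 := toZMod_of_norm_lt h5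
    rw [map_sub, map_pow, map_pow, hW, sub_eq_zero] at h6
    exact ⟨_, h6⟩
  constructor
  · intro h
    obtain ⟨t, ht⟩ := main 1 (by rw [h, pow_one])
    revert ht
    revert t
    decide
  · intro h
    obtain ⟨t, ht⟩ := main 2 h
    revert ht
    revert t
    decide

theorem norm949Stmt (D : DomStmt) : Norm949Stmt := by
  intro σ h1 h2 w hwK h949
  obtain ⟨i, W, hi, hW⟩ := exists_i13
  obtain ⟨hka, hth⟩ := setup13 i W hi hW
  obtain ⟨g, s, hs, hs1, hs2⟩ := exists_g13 i W hi hW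
  have hth0 : i th ≠ 0 := by
    intro h
    rw [h, norm_zero] at hth
    norm_num at hth
  have hom0 : i om ≠ 0 := (map_ne_zero i).mpr om_ne_zero
  have hw : Fx w := by
    intro s hs1 hs2
    apply fix_adjoin {vt} s _ w hwK
    intro a ha
    rw [Set.mem_singleton_iff] at ha
    rw [ha, vt, map_add, map_div₀, hs2, map_ofNat]
  have hw1 : Fx (σ w) := Fx_sigma h1 h2 hw
  have e1 : i (σ w) = g (i w) := by rw [hs w, Fx_eq h1 h2 hs1 hs2 hw]
  have e2 : i (σ (σ w)) = g (g (i w)) := by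
    rw [← e1, hs (σ w), Fx_eq h1 h2 hs1 hs2 hw1]
  have hprod : i w * g (i w) * g (g (i w)) = 949 := by
    rw [← e2, ← e1, ← map_mul, ← map_mul, h949, map_ofNat]
  have h949n : ‖(949 : Om 13)‖ = (13 : ℝ) ^ (-1 : ℤ) := by
    have h3 : (949 : Om 13) = zo 13 949 := by rw [map_ofNat]
    have h13 : ‖(13 : ℤ_[13])‖ = (13 : ℝ)⁻¹ := by
      have := PadicInt.norm_p (p := 13)
      exact_mod_cast this
    have h73 : ‖(73 : ℤ_[13])‖ = 1 := by
      by_contra hne
      have h5 : ‖((73 : ℤ) : ℤ_[13])‖ < 1 := lt_of_le_of_ne (PadicInt.norm_le_one _) (by exact_mod_cast hne)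
      rw [PadicInt.norm_int_lt_one_iff_dvd] at h5
      omega
    rw [h3, norm_zo, show (949 : ℤ_[13]) = 13 * 73 by norm_num, norm_mul, h13, h73, mul_one,
      zpow_neg_one]
  have hn : ‖i w‖ ^ 3 = (13 : ℝ) ^ (-((1 : ℕ) : ℤ)) := by
    have := congrArg norm hprod
    rw [norm_mul, norm_mul, norm_gal, norm_gal, norm_gal, h949n] at this
    rw [Nat.cast_one, ← this]; ring
  obtain ⟨B, hB⟩ := core13 D i W hi hW w hw 1 (by norm_num) hn
  rw [pow_one] at hB
  have hgB : ∀ g : Gp 13, g (zo 13 B) = zo 13 B := fun g => g.commutes _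
  have hB1 : ‖g (i w / i th) - zo 13 B‖ < 1 := by
    rw [← hgB g, ← map_sub, norm_gal]; exact hB
  have hB2 : ‖g (g (i w / i th)) - zo 13 B‖ < 1 := by
    rw [← hgB g, ← map_sub, norm_gal]; exact hB1
  have h5 := prod_close hB hB1 hB2 (by rw [norm_zo]; exact PadicInt.norm_le_one _)
  have hgth : g (i th) = i om * i th := by rw [hs th, hs2, map_mul]
  have hgom : g (i om) = i om := by rw [hs om, hs1]
  have hom3 : (i om) ^ 3 = 1 := by rw [← map_pow, om_cube, map_one]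
  have h6 : i w / i th * g (i w / i th) * g (g (i w / i th)) * i ka = 949 := by
    rw [map_div₀, hgth, map_div₀, map_mul, hgom, hgth, ← th_spec, map_pow, ← hprod]
    field_simp
    linear_combination -(i w * g (i w) * g (g (i w))) * hom3
  have h7 : ‖(i w / i th * g (i w / i th) * g (g (i w / i th)) - zo 13 B ^ 3) *
      zo 13 (19 * (10 - 129 * W))‖ < 1 := by
    rw [norm_mul]
    calc _ ≤ ‖i w / i th * g (i w / i th) * g (g (i w / i th)) - zo 13 B ^ 3‖ * 1 := by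
          apply mul_le_mul_of_nonneg_left _ (norm_nonneg _)
          rw [norm_zo]; exact PadicInt.norm_le_one _
      _ < 1 := by rw [mul_one]; exact h5
  have h8 : (i w / i th * g (i w / i th) * g (g (i w / i th)) - zo 13 B ^ 3) *
      zo 13 (19 * (10 - 129 * W)) = zo 13 (1 - B ^ 3 * (19 * (10 - 129 * W))) := by
    have h9 : i w / i th * g (i w / i th) * g (g (i w / i th)) *
        zo 13 (19 * (10 - 129 * W)) = 1 := by
      rw [hka, ← zo_apply, map_mul, map_ofNat] at h6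
      have h10 : (949 : Om 13) * (i w / i th * g (i w / i th) * g (g (i w / i th)) *
        zo 13 (19 * (10 - 129 * W))) = 949 * 1 := by
        rw [mul_one]
        conv_rhs => rw [← h6]
        ring
      exact mul_left_cancel₀ (by norm_num) h10
    rw [sub_mul, h9, map_sub, map_one, map_mul (zo 13) (B ^ 3), map_pow]
  rw [h8] at h7
  have h11 := toZMod_of_norm_lt h7
  simp only [map_sub, map_mul, map_pow, map_one, map_ofNat, hW] at h11
  have h12 : ∀ t : ZMod 13, 1 - t ^ 3 * (19 * (10 - 129 * 9)) ≠ 0 := by decide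
  exact h12 _ h11

end F8.H2
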